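import Mathlib

/-!
Definitions for MP_117f64_co: the hypercube graph, Čech complexes of graphs and geometric
realizations.
-/

namespace Pool.Agent.Lib.MP_117f64_co

open Finset ContinuousMap

/-- The `n`-dimensional hypercube graph: vertices are the functions `Fin n → Bool`, and two
vertices are adjacent when they differ in exactly one coordinate. -/
def hypercube (n : ℕ) : SimpleGraph (Fin n → Bool) where
  Adj v w := ∃! i, v i ≠ w i
  symm := ⟨fun v w h => by simpa only [ne_comm] using h⟩
  loopless := ⟨fun v h => by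
    obtain ⟨i, hi, -⟩ := h
    exact hi rfl⟩

/-- The ball `N_s[v]` of radius `s` about the vertex `v` for the graph metric. -/
def closedNbhd {V : Type*} (G : SimpleGraph V) (s : ℕ) (v : V) : Set V :=
  {w | G.dist v w ≤ s}

/-- The Čech complex `N(G, r)` of a connected graph `G` for integer `r`.  Its simplices are the
nonempty finite subsets of the sets `N_{r/2}[v]` if `r` is even, and of the sets
`N_{(r-1)/2}[v] ∪ N_{(r-1)/2}[w]` for edges `vw` if `r` is odd. -/
def cech {V : Type*} (G : SimpleGraph V) (r : ℕ) : PreAbstractSimplicialComplex V where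
  faces := {σ | σ.Nonempty ∧
    ((Even r ∧ ∃ v, (σ : Set V) ⊆ closedNbhd G (r / 2) v) ∨
      (Odd r ∧ ∃ v w, G.Adj v w ∧
        (σ : Set V) ⊆ closedNbhd G ((r - 1) / 2) v ∪ closedNbhd G ((r - 1) / 2) w))}
  isRelLowerSet_faces := by
    rintro σ ⟨hne, hσ⟩
    refine ⟨hne, fun τ hτ hτne => ⟨hτne, ?_⟩⟩
    have hτ' : (τ : Set V) ⊆ (σ : Set V) := by exact_mod_cast hτ
    rcases hσ with ⟨he, v, hv⟩ | ⟨ho, v, w, hvw, hv⟩
    · exact Or.inl ⟨he, v, hτ'.trans hv⟩
    · exact Or.inr ⟨ho, v, w, hvw, hτ'.trans hv⟩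

/-- The geometric realization of a simplicial complex on a finite vertex set `V`: the set of all
families of barycentric coordinates `μ : V → ℝ` (non-negative, with sum `1`) whose support is
contained in a simplex.  As a subset of `V → ℝ` it carries the subspace topology. -/
def realization {V : Type*} [Fintype V] (K : PreAbstractSimplicialComplex V) : Set (V → ℝ) :=
  {μ | (∀ x, 0 ≤ μ x) ∧ ∑ x, μ x = 1 ∧ ∃ σ ∈ K, ∀ x, μ x ≠ 0 → x ∈ σ}

end Pool.Agent.Lib.MP_117f64_co
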