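import Pool.Agent.Lib.MP_117f64_co.Defs

/-!
# Consecutive inclusions of hypercube Čech complexes are null-homotopic (proofs)
-/

namespace Pool.Agent.Lib.MP_117f64_co

open Finset ContinuousMap

/-! ## Straight-line homotopies and push-forwards -/

section General

variable {V : Type*} [Fintype V] {K : PreAbstractSimplicialComplex V}
variable {X : Type*} [TopologicalSpace X]

/-- Two maps into a realization are homotopic as soon as the supports of their values at every
point lie in a common simplex. -/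
lemma homotopic_of_common (F G : C(X, realization K))
    (h : ∀ x, ∃ σ ∈ K, (∀ v, (F x).1 v ≠ 0 → v ∈ σ) ∧ (∀ v, (G x).1 v ≠ 0 → v ∈ σ)) :
    F.Homotopic G := by
  refine ⟨⟨⟨fun p => ⟨fun v => (1 - (p.1 : ℝ)) * (F p.2).1 v + (p.1 : ℝ) * (G p.2).1 v,
    ?_⟩, ?_⟩, ?_, ?_⟩⟩
  · have h0 : (0 : ℝ) ≤ (p.1 : ℝ) := p.1.2.1
    have h1 : (p.1 : ℝ) ≤ 1 := p.1.2.2
    refine ⟨fun x => ?_, ?_, ?_⟩
    · have hF := (F p.2).2.1 x
      have hG := (G p.2).2.1 x
      have : 0 ≤ 1 - (p.1 : ℝ) := by linarith
      positivity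
    · rw [Finset.sum_add_distrib, ← Finset.mul_sum, ← Finset.mul_sum, (F p.2).2.2.1,
        (G p.2).2.2.1]
      ring
    · obtain ⟨σ, hσ, h1, h2⟩ := h p.2
      refine ⟨σ, hσ, fun x hx => ?_⟩
      by_contra hcon
      have e1 : (F p.2).1 x = 0 := by
        by_contra h'
        exact hcon (h1 x h')
      have e2 : (G p.2).1 x = 0 := by
        by_contra h'
        exact hcon (h2 x h')
      apply hx
      simp only [e1, e2, mul_zero, add_zero]
  · refine Continuous.subtype_mk ?_ _
    refine continuous_pi fun v => ?_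
    have hF : Continuous fun p : unitInterval × X => (F p.2).1 v :=
      (continuous_apply v).comp (continuous_subtype_val.comp (F.continuous.comp continuous_snd))
    have hG : Continuous fun p : unitInterval × X => (G p.2).1 v :=
      (continuous_apply v).comp (continuous_subtype_val.comp (G.continuous.comp continuous_snd))
    have ht : Continuous fun p : unitInterval × X => (p.1 : ℝ) :=
      continuous_subtype_val.comp continuous_fst
    exact ((continuous_const.sub ht).mul hF).add (ht.mul hG)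
  · intro x
    apply Subtype.ext
    funext v
    simp
  · intro x
    apply Subtype.ext
    funext v
    simp

variable [DecidableEq V] {E : Type*} [Fintype E]

/-- Push-forward of a weight function along `p : E → V`. -/
def push (p : E → V) (W : E → ℝ) (v : V) : ℝ := ∑ e, if p e = v then W e else 0

omit [Fintype V] in
lemma push_nonneg (p : E → V) (W : E → ℝ) (hW : ∀ e, 0 ≤ W e) (v : V) : 0 ≤ push p W v :=
  Finset.sum_nonneg fun e _ => by
    split_ifs
    · exact hW e
    · exact le_rfl

lemma sum_push (p : E → V) (W : E → ℝ) : ∑ v, push p W v = ∑ e, W e := by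
  unfold push
  rw [Finset.sum_comm]
  refine Finset.sum_congr rfl fun e _ => ?_
  simp

omit [Fintype V] in
lemma push_support (p : E → V) (W : E → ℝ) (v : V) (h : push p W v ≠ 0) :
    ∃ e, W e ≠ 0 ∧ p e = v := by
  obtain ⟨e, -, he⟩ := Finset.exists_ne_zero_of_sum_ne_zero h
  refine ⟨e, ?_, ?_⟩
  · intro h0
    apply he
    simp [h0]
  · by_contra h0
    exact he (if_neg h0)

/-- A normalised weight function with values on a finite set `E` and a map `p : E → V` give a
continuous map to the realization, provided that supports are sent into simplices. -/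
def mk (K : PreAbstractSimplicialComplex V) (W : C(X, E → ℝ)) (hnn : ∀ x e, 0 ≤ W x e)
    (hsum : ∀ x, ∑ e, W x e = 1) (p : E → V)
    (hs : ∀ x, ∃ σ ∈ K, ∀ e, W x e ≠ 0 → p e ∈ σ) : C(X, realization K) where
  toFun x := ⟨push p (W x), push_nonneg p _ (hnn x), (sum_push p _).trans (hsum x), by
    obtain ⟨σ, hσ, h⟩ := hs x
    refine ⟨σ, hσ, fun v hv => ?_⟩
    obtain ⟨e, he, rfl⟩ := push_support p _ v hv
    exact h e he⟩
  continuous_toFun := by
    refine Continuous.subtype_mk ?_ _
    refine continuous_pi fun v => ?_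
    unfold push
    refine continuous_finsetSum _ fun e _ => ?_
    by_cases h : p e = v
    · simp only [h, if_true]
      exact (continuous_apply e).comp W.continuous
    · simp only [h, if_false]
      exact continuous_const

lemma mk_support (W : C(X, E → ℝ)) (hnn : ∀ x e, 0 ≤ W x e)
    (hsum : ∀ x, ∑ e, W x e = 1) (p : E → V)
    (hs : ∀ x, ∃ σ ∈ K, ∀ e, W x e ≠ 0 → p e ∈ σ) (x : X) (v : V)
    (h : (mk K W hnn hsum p hs x).1 v ≠ 0) : ∃ e, W x e ≠ 0 ∧ p e = v :=
  push_support p _ v h

/-- Two push-forwards of the same weights are homotopic if the images of the supports lie in a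
common simplex. -/
lemma mk_homotopic (W : C(X, E → ℝ)) (hnn : ∀ x e, 0 ≤ W x e)
    (hsum : ∀ x, ∑ e, W x e = 1) (p q : E → V)
    (hp : ∀ x, ∃ σ ∈ K, ∀ e, W x e ≠ 0 → p e ∈ σ)
    (hq : ∀ x, ∃ σ ∈ K, ∀ e, W x e ≠ 0 → q e ∈ σ)
    (hpq : ∀ x, ∃ σ ∈ K, ∀ e, W x e ≠ 0 → p e ∈ σ ∧ q e ∈ σ) :
    (mk K W hnn hsum p hp).Homotopic (mk K W hnn hsum q hq) := by
  refine homotopic_of_common _ _ fun x => ?_
  obtain ⟨σ, hσ, h⟩ := hpq x
  refine ⟨σ, hσ, fun v hv => ?_, fun v hv => ?_⟩
  · obtain ⟨e, he, rfl⟩ := mk_support W hnn hsum p hp x v hv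
    exact (h e he).1
  · obtain ⟨e, he, rfl⟩ := mk_support W hnn hsum q hq x v hv
    exact (h e he).2

/-- If `p` is constant, the push-forward is a constant map. -/
lemma mk_const_nullhomotopic (W : C(X, E → ℝ)) (hnn : ∀ x e, 0 ≤ W x e)
    (hsum : ∀ x, ∑ e, W x e = 1) (p : E → V) (v₀ : V) (hp₀ : ∀ e, p e = v₀)
    (hp : ∀ x, ∃ σ ∈ K, ∀ e, W x e ≠ 0 → p e ∈ σ) (hv₀ : ∃ σ ∈ K, v₀ ∈ σ) :
    (mk K W hnn hsum p hp).Nullhomotopic := by
  obtain ⟨σ, hσ, hv⟩ := hv₀
  have hmem : (fun v => if v₀ = v then (1 : ℝ) else 0) ∈ realization K := by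
    refine ⟨fun x => by dsimp only; split_ifs <;> norm_num, by simp, σ, hσ, fun x hx => ?_⟩
    by_cases h : v₀ = x
    · exact h ▸ hv
    · exact absurd (if_neg h) hx
  refine ⟨⟨_, hmem⟩, ?_⟩
  have : mk K W hnn hsum p hp = ContinuousMap.const X ⟨_, hmem⟩ := by
    ext x v
    change push p (W x) v = if v₀ = v then 1 else 0
    unfold push
    simp only [hp₀]
    by_cases h : v₀ = v
    · simp [h, hsum]
    · simp [h]
  rw [this]

/-! ## Canonical weights on a realization -/

section Weights

variable [Nonempty V] {L : PreAbstractSimplicialComplex V}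

omit [DecidableEq V] in
lemma exists_argmax (μ : V → ℝ) (hμ : ∀ x, 0 ≤ μ x) : ∃ x, μ x = ‖μ‖ := by
  obtain ⟨x, hx⟩ := Finite.exists_max μ
  refine ⟨x, le_antisymm ?_ ?_⟩
  · calc μ x ≤ ‖μ x‖ := Real.le_norm_self _
      _ ≤ ‖μ‖ := norm_le_pi_norm μ x
  · rw [pi_norm_le_iff_of_nonneg (hμ x)]
    intro y
    rw [Real.norm_of_nonneg (hμ y)]
    exact hx y

/-- Raw weight of the index `e`: it is positive only if the coordinates outside `A e` have total
mass less than the largest coordinate. -/
def rawWeight (A : E → Finset V) (μ : V → ℝ) (e : E) : ℝ := max 0 (‖μ‖ - ∑ x ∈ (A e)ᶜ, μ x)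

omit [Nonempty V] [Fintype E] in
lemma rawWeight_nonneg (A : E → Finset V) (μ : V → ℝ) (e : E) : 0 ≤ rawWeight A μ e :=
  le_max_left _ _

omit [Nonempty V] [Fintype E] in
lemma rawWeight_argmax (A : E → Finset V) (μ : V → ℝ) (hμ : ∀ x, 0 ≤ μ x) (e : E)
    (he : rawWeight A μ e ≠ 0) (x : V) (hx : μ x = ‖μ‖) : x ∈ A e := by
  by_contra hcon
  apply he
  unfold rawWeight
  apply max_eq_left
  have : μ x ≤ ∑ y ∈ (A e)ᶜ, μ y :=
    Finset.single_le_sum (f := μ) (fun y _ => hμ y) (by simpa using hcon)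
  linarith

omit [Nonempty V] [Fintype E] in
lemma rawWeight_le (A : E → Finset V) (μ : V → ℝ) (hμ : ∀ x, 0 ≤ μ x) (e : E) :
    rawWeight A μ e ≤ ‖μ‖ := by
  unfold rawWeight
  refine max_le (norm_nonneg _) ?_
  have : 0 ≤ ∑ x ∈ (A e)ᶜ, μ x := Finset.sum_nonneg fun y _ => hμ y
  linarith

omit [Nonempty V] [Fintype E] in
lemma rawWeight_full (A : E → Finset V) (μ : V → ℝ) (e : E)
    (he : ∀ x, μ x ≠ 0 → x ∈ A e) : rawWeight A μ e = ‖μ‖ := by
  unfold rawWeight
  have : ∑ x ∈ (A e)ᶜ, μ x = 0 := by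
    refine Finset.sum_eq_zero fun x hx => ?_
    by_contra h
    exact (Finset.mem_compl.mp hx) (he x h)
  rw [this, sub_zero]
  exact max_eq_right (norm_nonneg _)

omit [Nonempty V] [Fintype E] in
lemma full_of_rawWeight (A : E → Finset V) (μ : V → ℝ) (hμ : ∀ x, 0 ≤ μ x) (hne : 0 < ‖μ‖) (e : E)
    (he : ‖μ‖ ≤ rawWeight A μ e) (x : V) (hx : μ x ≠ 0) : x ∈ A e := by
  by_contra hcon
  unfold rawWeight at he
  have h1 : μ x ≤ ∑ y ∈ (A e)ᶜ, μ y :=
    Finset.single_le_sum (f := μ) (fun y _ => hμ y) (by simpa using hcon)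
  have h2 : 0 < μ x := lt_of_le_of_ne (hμ x) (Ne.symm hx)
  rcases le_max_iff.mp he with h | h
  · linarith
  · linarith

omit [DecidableEq V] [Nonempty V] in
lemma norm_pos_of_mem {μ : V → ℝ} (h : μ ∈ realization K) : 0 < ‖μ‖ := by
  rw [norm_pos_iff]
  rintro rfl
  have := h.2.1
  simp at this

omit [Nonempty V] [Fintype E] in
lemma continuous_rawWeight (A : E → Finset V) (e : E) :
    Continuous fun μ : V → ℝ => rawWeight A μ e := by
  unfold rawWeight
  refine continuous_const.max (continuous_norm.sub ?_)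
  exact continuous_finsetSum _ fun x _ => continuous_apply x

/-- Total raw weight. -/
def total (A : E → Finset V) (μ : V → ℝ) : ℝ := ∑ e, rawWeight A μ e

omit [Nonempty V] in
lemma total_pos (A : E → Finset V) (hA : ∀ σ ∈ K, ∃ e, σ ⊆ A e) {μ : V → ℝ}
    (h : μ ∈ realization K) : 0 < total A μ := by
  obtain ⟨σ, hσ, hsupp⟩ := h.2.2
  obtain ⟨e, he⟩ := hA σ hσ
  have h1 : rawWeight A μ e = ‖μ‖ := rawWeight_full A μ e fun x hx => he (hsupp x hx)
  have h2 : rawWeight A μ e ≤ total A μ :=
    Finset.single_le_sum (f := fun e => rawWeight A μ e) (fun y _ => rawWeight_nonneg A μ y)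
      (Finset.mem_univ e)
  have := norm_pos_of_mem h
  linarith

/-- The normalised weights, as a continuous function on the realization. -/
noncomputable def weights (A : E → Finset V) (hA : ∀ σ ∈ K, ∃ e, σ ⊆ A e) :
    C(realization K, E → ℝ) where
  toFun μ e := rawWeight A μ.1 e / total A μ.1
  continuous_toFun := by
    refine continuous_pi fun e => ?_
    refine Continuous.div ?_ ?_ ?_
    · exact (continuous_rawWeight A e).comp continuous_subtype_val
    · unfold total
      exact continuous_finsetSum _ fun e _ =>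
        (continuous_rawWeight A e).comp continuous_subtype_val
    · exact fun μ => (total_pos A hA μ.2).ne'

omit [Nonempty V] in
lemma weights_nonneg (A : E → Finset V) (hA : ∀ σ ∈ K, ∃ e, σ ⊆ A e) (μ : realization K) (e : E) :
    0 ≤ weights A hA μ e :=
  div_nonneg (rawWeight_nonneg A _ e) (total_pos A hA μ.2).le

omit [Nonempty V] in
lemma weights_sum (A : E → Finset V) (hA : ∀ σ ∈ K, ∃ e, σ ⊆ A e) (μ : realization K) :
    ∑ e, weights A hA μ e = 1 := by
  change ∑ e, rawWeight A μ.1 e / total A μ.1 = 1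
  rw [← Finset.sum_div]
  exact div_self (total_pos A hA μ.2).ne'

omit [Nonempty V] in
lemma weights_ne (A : E → Finset V) (hA : ∀ σ ∈ K, ∃ e, σ ⊆ A e) (μ : realization K) (e : E)
    (h : weights A hA μ e ≠ 0) : rawWeight A μ.1 e ≠ 0 := by
  intro h0
  apply h
  change rawWeight A μ.1 e / total A μ.1 = 0
  rw [h0, zero_div]

omit [Nonempty V] in
lemma weights_argmax (A : E → Finset V) (hA : ∀ σ ∈ K, ∃ e, σ ⊆ A e) (μ : realization K) (e : E)
    (h : weights A hA μ e ≠ 0) (x : V) (hx : μ.1 x = ‖μ.1‖) : x ∈ A e :=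
  rawWeight_argmax A μ.1 μ.2.1 e (weights_ne A hA μ e h) x hx

end Weights

end General

/-! ## The hypercube -/

section Cube

variable {n : ℕ}

/-- Vertices of the hypercube. -/
abbrev Vert (n : ℕ) := Fin n → Bool

lemma adj_iff (v w : Vert n) : (hypercube n).Adj v w ↔ hammingDist v w = 1 := by
  change (∃! i, v i ≠ w i) ↔ _
  unfold hammingDist
  rw [Finset.card_eq_one]
  constructor
  · rintro ⟨i, hi, hu⟩
    refine ⟨i, ?_⟩
    ext j
    simp only [Finset.mem_filter, Finset.mem_univ, true_and, Finset.mem_singleton]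
    exact ⟨fun h => hu j h, fun h => h ▸ hi⟩
  · rintro ⟨i, hi⟩
    have hmem : ∀ j, v j ≠ w j ↔ j = i := by
      intro j
      have := congrArg (fun s => j ∈ s) hi
      simpa using this
    exact ⟨i, (hmem i).2 rfl, fun j hj => (hmem j).1 hj⟩

lemma hammingDist_update (v w : Vert n) (i : Fin n) (h : v i ≠ w i) :
    hammingDist (Function.update v i (w i)) w + 1 = hammingDist v w := by
  unfold hammingDist
  have : (Finset.univ.filter fun j => Function.update v i (w i) j ≠ w j)
      = (Finset.univ.filter fun j => v j ≠ w j).erase i := by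
    ext j
    simp only [Finset.mem_filter, Finset.mem_univ, true_and, Finset.mem_erase]
    by_cases hj : j = i
    · subst hj
      simp
    · simp [hj]
  rw [this]
  exact Finset.card_erase_add_one (by simpa using h)

lemma hammingDist_update_self (v : Vert n) (i : Fin n) (b : Bool) (h : v i ≠ b) :
    hammingDist v (Function.update v i b) = 1 := by
  unfold hammingDist
  rw [Finset.card_eq_one]
  refine ⟨i, ?_⟩
  ext j
  simp only [Finset.mem_filter, Finset.mem_univ, true_and, Finset.mem_singleton]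
  by_cases hj : j = i
  · subst hj
    simpa using h
  · simp [hj]

lemma exists_walk (k : ℕ) : ∀ v w : Vert n, hammingDist v w = k →
    ∃ p : (hypercube n).Walk v w, p.length = k := by
  induction k with
  | zero =>
    intro v w h
    obtain rfl := eq_of_hammingDist_eq_zero h
    exact ⟨SimpleGraph.Walk.nil, rfl⟩
  | succ k ih =>
    intro v w h
    have hne : v ≠ w := by
      rintro rfl
      simp at h
    obtain ⟨i, hi⟩ := Function.ne_iff.mp hne
    have h1 := hammingDist_update v w i hi
    obtain ⟨p, hp⟩ := ih (Function.update v i (w i)) w (by omega)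
    refine ⟨SimpleGraph.Walk.cons ((adj_iff _ _).2 (hammingDist_update_self v i (w i) hi)) p, ?_⟩
    simp [hp]

lemma hypercube_connected : (hypercube n).Connected :=
  { preconnected := fun v w => (exists_walk _ v w rfl).choose.reachable
    nonempty := ⟨fun _ => false⟩ }

lemma hammingDist_le_length {v w : Vert n} (p : (hypercube n).Walk v w) :
    hammingDist v w ≤ p.length := by
  induction p with
  | nil => simp
  | @cons a b c h p ih =>
    have h1 := (adj_iff _ _).1 h
    have h2 := hammingDist_triangle a b c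
    rw [SimpleGraph.Walk.length_cons]
    omega

lemma dist_eq (v w : Vert n) : (hypercube n).dist v w = hammingDist v w := by
  apply le_antisymm
  · obtain ⟨p, hp⟩ := exists_walk _ v w rfl
    rw [← hp]
    exact SimpleGraph.dist_le p
  · obtain ⟨p, hp⟩ := hypercube_connected.exists_walk_length_eq_dist v w
    rw [← hp]
    exact hammingDist_le_length p

/-- The ball of radius `t` about `v` as a finite set. -/
def bal (t : ℕ) (v : Vert n) : Finset (Vert n) := Finset.univ.filter fun w => hammingDist v w ≤ t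

lemma mem_bal (t : ℕ) (v w : Vert n) : w ∈ bal t v ↔ hammingDist v w ≤ t := by simp [bal]

lemma mem_bal_comm (t : ℕ) (v w : Vert n) : w ∈ bal t v ↔ v ∈ bal t w := by
  rw [mem_bal, mem_bal, hammingDist_comm]

lemma coe_bal (t : ℕ) (v : Vert n) :
    (bal t v : Set (Vert n)) = closedNbhd (hypercube n) t v := by
  ext w
  simp [bal, closedNbhd, dist_eq]

lemma bal_mem_cech (t : ℕ) (v : Vert n) : bal t v ∈ cech (hypercube n) (2 * t) := by
  refine ⟨⟨v, by simp [bal]⟩, Or.inl ⟨even_two_mul t, v, ?_⟩⟩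
  rw [coe_bal, Nat.mul_div_cancel_left t (by norm_num)]

lemma mem_cech_even (t : ℕ) (σ : Finset (Vert n)) (h : σ ∈ cech (hypercube n) (2 * t)) :
    ∃ v, σ ⊆ bal t v := by
  rcases h.2 with ⟨-, v, hv⟩ | ⟨ho, -⟩
  · refine ⟨v, ?_⟩
    rw [← Finset.coe_subset, coe_bal]
    rwa [Nat.mul_div_cancel_left t (by norm_num)] at hv
  · exact absurd (even_two_mul t) (Nat.not_even_iff_odd.mpr ho)

lemma mem_cech_odd (s : ℕ) (σ : Finset (Vert n)) (h : σ ∈ cech (hypercube n) (2 * s + 1)) :
    ∃ v w, hammingDist v w = 1 ∧ σ ⊆ bal s v ∪ bal s w := by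
  rcases h.2 with ⟨he, -⟩ | ⟨-, v, w, hvw, hσ⟩
  · exact absurd he (Nat.not_even_iff_odd.mpr (odd_two_mul_add_one s))
  · refine ⟨v, w, (adj_iff v w).1 hvw, ?_⟩
    rw [← Finset.coe_subset, Finset.coe_union, coe_bal, coe_bal]
    rwa [show (2 * s + 1 - 1) / 2 = s by omega] at hσ

lemma union_mem_cech (s : ℕ) (v w : Vert n) (h : hammingDist v w = 1) :
    bal s v ∪ bal s w ∈ cech (hypercube n) (2 * s + 1) := by
  refine ⟨⟨v, by simp [bal]⟩, Or.inr ⟨odd_two_mul_add_one s, v, w, (adj_iff v w).2 h, ?_⟩⟩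
  rw [Finset.coe_union, coe_bal, coe_bal, show (2 * s + 1 - 1) / 2 = s by omega]

/-- Set the coordinates in `S` to `false`. -/
def zero (S : Finset (Fin n)) (x : Vert n) : Vert n := fun i => if i ∈ S then false else x i

lemma zero_lipschitz (S : Finset (Fin n)) (x y : Vert n) :
    hammingDist (zero S x) (zero S y) ≤ hammingDist x y :=
  hammingDist_comp_le_hammingDist (fun i b => if i ∈ S then false else b)

lemma zero_mem_bal (S : Finset (Fin n)) (t : ℕ) (x y : Vert n) (h : y ∈ bal t x) :
    zero S y ∈ bal t (zero S x) := by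
  rw [mem_bal] at h ⊢
  exact (zero_lipschitz S x y).trans h

lemma zero_singleton_dist (i : Fin n) (x : Vert n) : hammingDist x (zero {i} x) ≤ 1 := by
  by_cases h : x i = false
  · have : zero {i} x = x := by
      funext j
      by_cases hj : j = i
      · subst hj
        simp [zero, h]
      · simp [zero, hj]
    rw [this, hammingDist_self]
    exact Nat.zero_le _
  · have : zero {i} x = Function.update x i false := by
      funext j
      by_cases hj : j = i
      · subst hj
        simp [zero]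
      · simp [zero, hj]
    rw [this, hammingDist_update_self x i false h]

lemma zero_insert (S : Finset (Fin n)) (i : Fin n) (x : Vert n) :
    zero (insert i S) x = zero S (zero {i} x) := by
  funext j
  simp only [zero, Finset.mem_insert, Finset.mem_singleton]
  by_cases h1 : j ∈ S
  · simp [h1]
  · by_cases h2 : j = i
    · simp [h2]
    · simp [h1, h2]

lemma zero_empty (x : Vert n) : zero ∅ x = x := by
  funext j
  simp [zero]

lemma zero_univ (x : Vert n) : zero Finset.univ x = fun _ => false := by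
  funext j
  simp [zero]

/-- Parity of a vertex. -/
def par (x : Vert n) : ZMod 2 := ∑ i, if x i then 1 else 0

lemma par_add (x y : Vert n) : (hammingDist x y : ZMod 2) = par x + par y := by
  unfold hammingDist par
  rw [Finset.card_filter, Nat.cast_sum, ← Finset.sum_add_distrib]
  refine Finset.sum_congr rfl fun i _ => ?_
  cases x i <;> cases y i <;> simp; decide

/-- Edges, oriented from the vertex of parity `0` to the vertex of parity `1`. -/
abbrev OEdge (n : ℕ) := {e : Vert n × Vert n // hammingDist e.1 e.2 = 1 ∧ par e.1 = 0}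

lemma par_snd (e : OEdge n) : par e.1.2 = 1 := by
  have h := par_add e.1.1 e.1.2
  rw [e.2.1, e.2.2, zero_add] at h
  simpa using h.symm

/-- The key geometric fact: for the edges with both ends in a ball of radius `s + 1`, the even
ends and the images of the odd ends under the `i`-th projection lie in a common ball. -/
lemma key (s : ℕ) (x : Vert n) (i : Fin n) : ∃ y : Vert n, ∀ e : OEdge n,
    e.1.1 ∈ bal (s + 1) x → e.1.2 ∈ bal (s + 1) x →
      e.1.1 ∈ bal (s + 1) y ∧ zero {i} e.1.2 ∈ bal (s + 1) y := by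
  by_cases hx : par x = (s : ZMod 2)
  · refine ⟨zero {i} x, fun e h1 h2 => ⟨?_, zero_mem_bal _ _ _ _ h2⟩⟩
    rw [mem_bal] at h1 ⊢
    have h3 : hammingDist x e.1.1 ≠ s + 1 := by
      intro h
      have h4 := par_add x e.1.1
      rw [h, e.2.2, hx, add_zero] at h4
      push_cast at h4
      simp at h4
    have h5 := hammingDist_triangle (zero {i} x) x e.1.1
    have h6 := zero_singleton_dist i x
    rw [hammingDist_comm] at h6
    omega
  · refine ⟨x, fun e h1 h2 => ⟨h1, ?_⟩⟩
    rw [mem_bal] at h2 ⊢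
    have h3 : hammingDist x e.1.2 ≠ s + 1 := by
      intro h
      have h4 := par_add x e.1.2
      rw [h, par_snd e] at h4
      push_cast at h4
      exact hx (add_right_cancel h4).symm
    have h5 := hammingDist_triangle x e.1.2 (zero {i} e.1.2)
    have h6 := zero_singleton_dist i e.1.2
    omega

lemma subset_of_cofinal {V : Type*} [Fintype V] {K L : PreAbstractSimplicialComplex V}
    (h : ∀ σ ∈ K, ∃ τ ∈ L, σ ⊆ τ) : realization K ⊆ realization L := by
  rintro μ ⟨h0, h1, σ, hσ, hs⟩
  obtain ⟨τ, hτ, hστ⟩ := h σ hσ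
  exact ⟨h0, h1, τ, hτ, fun x hx => hστ (hs x hx)⟩

/-- Two vertices which are equal or adjacent lie, with their balls, in a common simplex. -/
lemma union_le (hn : 1 ≤ n) (s : ℕ) (v w : Vert n) (h : hammingDist v w ≤ 1) :
    ∃ τ ∈ cech (hypercube n) (2 * s + 1), bal s v ⊆ τ ∧ bal s w ⊆ τ := by
  rcases Nat.lt_or_ge (hammingDist v w) 1 with h0 | h1
  · have hvw : v = w := hammingDist_lt_one.mp h0
    subst hvw
    have hne : v ⟨0, hn⟩ ≠ !(v ⟨0, hn⟩) := by cases v ⟨0, hn⟩ <;> simp
    refine ⟨_, union_mem_cech s v (Function.update v ⟨0, hn⟩ (!(v ⟨0, hn⟩)))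
      (hammingDist_update_self v _ _ hne), Finset.subset_union_left, Finset.subset_union_left⟩
  · exact ⟨_, union_mem_cech s v w (le_antisymm h h1), Finset.subset_union_left,
      Finset.subset_union_right⟩

theorem even_case (hn : 1 ≤ n) (s : ℕ) :
    ∃ h : realization (cech (hypercube n) (2 * s)) ⊆ realization (cech (hypercube n) (2 * s + 1)),
      (⟨Set.inclusion h, continuous_inclusion h⟩ :
        C(realization (cech (hypercube n) (2 * s)),
          realization (cech (hypercube n) (2 * s + 1)))).Nullhomotopic := by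
  have h : realization (cech (hypercube n) (2 * s)) ⊆
      realization (cech (hypercube n) (2 * s + 1)) := by
    refine subset_of_cofinal fun σ hσ => ?_
    obtain ⟨v, hv⟩ := mem_cech_even s σ hσ
    obtain ⟨τ, hτ, h1, -⟩ := union_le hn s v v (by simp)
    exact ⟨τ, hτ, hv.trans h1⟩
  refine ⟨h, ?_⟩
  let W : C(realization (cech (hypercube n) (2 * s)), Vert n → ℝ) :=
    ⟨Subtype.val, continuous_subtype_val⟩
  have hnn : ∀ μ e, 0 ≤ W μ e := fun μ e => μ.2.1 e
  have hsum : ∀ μ, ∑ e, W μ e = 1 := fun μ => μ.2.2.1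
  have hp : ∀ S : Finset (Fin n), ∀ μ, ∃ σ ∈ cech (hypercube n) (2 * s + 1),
      ∀ e, W μ e ≠ 0 → zero S e ∈ σ := by
    intro S μ
    obtain ⟨σ, hσ, hs⟩ := μ.2.2.2
    obtain ⟨v, hv⟩ := mem_cech_even s σ hσ
    obtain ⟨τ, hτ, h1, -⟩ := union_le hn s (zero S v) (zero S v) (by simp)
    exact ⟨τ, hτ, fun e he => h1 (zero_mem_bal S s v e (hv (hs e he)))⟩
  have hmain : ∀ S : Finset (Fin n),
      (mk _ W hnn hsum (zero ∅) (hp ∅)).Homotopic (mk _ W hnn hsum (zero S) (hp S)) := by
    intro S
    induction S using Finset.induction_on with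
    | empty => exact ContinuousMap.Homotopic.refl _
    | insert i S _ ih =>
      refine ih.trans (mk_homotopic W hnn hsum _ _ _ _ fun μ => ?_)
      obtain ⟨σ, hσ, hs⟩ := μ.2.2.2
      obtain ⟨v, hv⟩ := mem_cech_even s σ hσ
      obtain ⟨τ, hτ, h1, h2⟩ := union_le hn s (zero S v) (zero S (zero {i} v))
        ((zero_lipschitz S _ _).trans (zero_singleton_dist i v))
      refine ⟨τ, hτ, fun e he => ⟨h1 (zero_mem_bal S s v e (hv (hs e he))), ?_⟩⟩
      rw [zero_insert]
      exact h2 (zero_mem_bal S s _ _ (zero_mem_bal {i} s v e (hv (hs e he))))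
  have hincl : (⟨Set.inclusion h, continuous_inclusion h⟩ :
        C(realization (cech (hypercube n) (2 * s)),
          realization (cech (hypercube n) (2 * s + 1)))).Homotopic
        (mk _ W hnn hsum (zero ∅) (hp ∅)) := by
    refine homotopic_of_common _ _ fun μ => ?_
    obtain ⟨σ, hσ, hs⟩ := (h μ.2).2.2
    refine ⟨σ, hσ, fun v hv => hs v hv, fun v hv => ?_⟩
    obtain ⟨e, he, rfl⟩ := mk_support W hnn hsum _ _ μ v hv
    rw [zero_empty]
    exact hs e he
  obtain ⟨y, hy⟩ := mk_const_nullhomotopic W hnn hsum (zero Finset.univ) (fun _ => false)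
    zero_univ (hp Finset.univ) (by
      obtain ⟨τ, hτ, h1, -⟩ := union_le hn s (fun _ => false) (fun _ => false) (by simp)
      exact ⟨τ, hτ, h1 (by simp [bal])⟩)
  exact ⟨y, (hincl.trans (hmain Finset.univ)).trans hy⟩

theorem odd_case (s : ℕ) :
    ∃ h : realization (cech (hypercube n) (2 * s + 1)) ⊆
        realization (cech (hypercube n) (2 * (s + 1))),
      (⟨Set.inclusion h, continuous_inclusion h⟩ :
        C(realization (cech (hypercube n) (2 * s + 1)),
          realization (cech (hypercube n) (2 * (s + 1))))).Nullhomotopic := by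
  let A : OEdge n → Finset (Vert n) := fun e => bal (s + 1) e.1.1 ∩ bal (s + 1) e.1.2
  have hAK : ∀ σ ∈ cech (hypercube n) (2 * s + 1), ∃ e, σ ⊆ A e := by
    intro σ hσ
    obtain ⟨v, w, hvw, hs⟩ := mem_cech_odd s σ hσ
    have hsub : σ ⊆ bal (s + 1) v ∩ bal (s + 1) w := by
      intro x hx
      have h1 := hammingDist_triangle v w x
      have h2 := hammingDist_triangle w v x
      have h3 := hammingDist_comm v w
      have h4 := hs hx
      rw [Finset.mem_union, mem_bal, mem_bal] at h4
      rw [Finset.mem_inter, mem_bal, mem_bal]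
      omega
    have hpar : ∀ a : ZMod 2, a = 0 ∨ a = 1 := by decide
    rcases hpar (par v) with h0 | h1
    · exact ⟨⟨(v, w), hvw, h0⟩, hsub⟩
    · refine ⟨⟨(w, v), (hammingDist_comm w v).trans hvw, ?_⟩, ?_⟩
      · have h2 := par_add v w
        rw [hvw, h1, Nat.cast_one] at h2
        simpa using h2.symm
      · rw [Finset.inter_comm] at hsub
        exact hsub
  have hAL : ∀ σ ∈ cech (hypercube n) (2 * (s + 1)), ∃ e, σ ⊆ bal (s + 1) e :=
    fun σ hσ => mem_cech_even (s + 1) σ hσ
  have h : realization (cech (hypercube n) (2 * s + 1)) ⊆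
      realization (cech (hypercube n) (2 * (s + 1))) := by
    refine subset_of_cofinal fun σ hσ => ?_
    obtain ⟨e, he⟩ := hAK σ hσ
    exact ⟨_, bal_mem_cech (s + 1) e.1.1, he.trans Finset.inter_subset_left⟩
  refine ⟨h, ?_⟩
  -- the self-map `D`
  have hD : ∀ μ : realization (cech (hypercube n) (2 * (s + 1))),
      ∀ x, μ.1 x = ‖μ.1‖ → ∀ e, weights (bal (s + 1)) hAL μ e ≠ 0 → id e ∈ bal (s + 1) x := by
    intro μ x hx e he
    exact (mem_bal_comm _ _ _).1 (weights_argmax _ hAL μ e he x hx)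
  let D : C(realization (cech (hypercube n) (2 * (s + 1))),
      realization (cech (hypercube n) (2 * (s + 1)))) :=
    mk _ (weights (bal (s + 1)) hAL) (weights_nonneg _ hAL) (weights_sum _ hAL) id (fun μ => by
      obtain ⟨x, hx⟩ := exists_argmax μ.1 μ.2.1
      exact ⟨_, bal_mem_cech (s + 1) x, hD μ x hx⟩)
  have hDsupp : ∀ μ : realization (cech (hypercube n) (2 * (s + 1))), ∀ x, μ.1 x = ‖μ.1‖ →
      ∀ v, (D μ).1 v ≠ 0 → v ∈ bal (s + 1) x := by
    intro μ x hx v hv
    obtain ⟨e, he, rfl⟩ := mk_support _ _ _ _ _ μ v hv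
    exact hD μ x hx e he
  have hDval : ∀ μ : realization (cech (hypercube n) (2 * (s + 1))), ∀ v,
      (D μ).1 v = rawWeight (bal (s + 1)) μ.1 v / total (bal (s + 1)) μ.1 := by
    intro μ v
    change push id (fun e => rawWeight (bal (s + 1)) μ.1 e / total (bal (s + 1)) μ.1) v = _
    simp [push]
  -- `D ∘ D` is homotopic to the identity
  have hDD : (D.comp D).Homotopic (ContinuousMap.id _) := by
    refine homotopic_of_common _ _ fun μ => ?_
    obtain ⟨v, hv⟩ := exists_argmax (D μ).1 (D μ).2.1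
    refine ⟨_, bal_mem_cech (s + 1) v, fun w hw => hDsupp (D μ) v hv w hw, fun w hw => ?_⟩
    obtain ⟨σ, hσ, hs⟩ := μ.2.2.2
    obtain ⟨c, hc⟩ := hAL σ hσ
    have h1 : rawWeight (bal (s + 1)) μ.1 c = ‖μ.1‖ :=
      rawWeight_full _ _ _ fun x hx => hc (hs x hx)
    have htot : 0 < total (bal (s + 1)) μ.1 := total_pos _ hAL μ.2
    have h2 : (D μ).1 c ≤ (D μ).1 v := by
      rw [hv]
      exact (Real.le_norm_self _).trans (norm_le_pi_norm _ c)
    rw [hDval, hDval, h1, div_le_div_iff_of_pos_right htot] at h2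
    exact full_of_rawWeight _ μ.1 μ.2.1 (norm_pos_of_mem μ.2) v h2 w hw
  -- the edge weights
  have hE : ∀ μ : realization (cech (hypercube n) (2 * s + 1)), ∀ x, μ.1 x = ‖μ.1‖ →
      ∀ e, weights A hAK μ e ≠ 0 → e.1.1 ∈ bal (s + 1) x ∧ e.1.2 ∈ bal (s + 1) x := by
    intro μ x hx e he
    have h1 := weights_argmax _ hAK μ e he x hx
    have h2 := Finset.mem_inter.mp h1
    exact ⟨(mem_bal_comm _ _ _).1 h2.1, (mem_bal_comm _ _ _).1 h2.2⟩
  have hp : ∀ S : Finset (Fin n), ∀ μ, ∃ σ ∈ cech (hypercube n) (2 * (s + 1)),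
      ∀ e, weights A hAK μ e ≠ 0 → zero S e.1.1 ∈ σ := by
    intro S μ
    obtain ⟨x, hx⟩ := exists_argmax μ.1 μ.2.1
    exact ⟨_, bal_mem_cech (s + 1) (zero S x), fun e he =>
      zero_mem_bal S _ _ _ (hE μ x hx e he).1⟩
  have hq : ∀ S : Finset (Fin n), ∀ μ, ∃ σ ∈ cech (hypercube n) (2 * (s + 1)),
      ∀ e, weights A hAK μ e ≠ 0 → zero S e.1.2 ∈ σ := by
    intro S μ
    obtain ⟨x, hx⟩ := exists_argmax μ.1 μ.2.1
    exact ⟨_, bal_mem_cech (s + 1) (zero S x), fun e he =>
      zero_mem_bal S _ _ _ (hE μ x hx e he).2⟩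
  have hmain : ∀ S : Finset (Fin n),
      (mk _ (weights A hAK) (weights_nonneg A hAK) (weights_sum A hAK)
        (fun e => zero ∅ e.1.1) (hp ∅)).Homotopic
      (mk _ (weights A hAK) (weights_nonneg A hAK) (weights_sum A hAK)
        (fun e => zero S e.1.1) (hp S)) := by
    intro S
    induction S using Finset.induction_on with
    | empty => exact ContinuousMap.Homotopic.refl _
    | insert i S _ ih =>
      have step1 : (mk _ (weights A hAK) (weights_nonneg A hAK) (weights_sum A hAK)
          (fun e => zero S e.1.1) (hp S)).Homotopic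
          (mk _ (weights A hAK) (weights_nonneg A hAK) (weights_sum A hAK)
          (fun e => zero (insert i S) e.1.2) (hq (insert i S))) := by
        refine mk_homotopic _ _ _ _ _ _ _ fun μ => ?_
        obtain ⟨x, hx⟩ := exists_argmax μ.1 μ.2.1
        obtain ⟨y, hy⟩ := key s x i
        refine ⟨_, bal_mem_cech (s + 1) (zero S y), fun e he => ?_⟩
        obtain ⟨h1, h2⟩ := hE μ x hx e he
        obtain ⟨h3, h4⟩ := hy e h1 h2
        refine ⟨zero_mem_bal S _ _ _ h3, ?_⟩
        rw [zero_insert]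
        exact zero_mem_bal S _ _ _ h4
      have step2 : (mk _ (weights A hAK) (weights_nonneg A hAK) (weights_sum A hAK)
          (fun e => zero (insert i S) e.1.2) (hq (insert i S))).Homotopic
          (mk _ (weights A hAK) (weights_nonneg A hAK) (weights_sum A hAK)
          (fun e => zero (insert i S) e.1.1) (hp (insert i S))) := by
        refine mk_homotopic _ _ _ _ _ _ _ fun μ => ?_
        obtain ⟨x, hx⟩ := exists_argmax μ.1 μ.2.1
        refine ⟨_, bal_mem_cech (s + 1) (zero (insert i S) x), fun e he => ?_⟩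
        obtain ⟨h1, h2⟩ := hE μ x hx e he
        exact ⟨zero_mem_bal _ _ _ _ h2, zero_mem_bal _ _ _ _ h1⟩
      exact (ih.trans step1).trans step2
  set ι : C(realization (cech (hypercube n) (2 * s + 1)),
      realization (cech (hypercube n) (2 * (s + 1)))) :=
    ⟨Set.inclusion h, continuous_inclusion h⟩ with hι
  -- `D ∘ ι` is homotopic to the push-forward of the edge weights
  have hDι : (D.comp ι).Homotopic
      (mk _ (weights A hAK) (weights_nonneg A hAK) (weights_sum A hAK)
        (fun e => zero ∅ e.1.1) (hp ∅)) := by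
    refine homotopic_of_common _ _ fun μ => ?_
    obtain ⟨x, hx⟩ := exists_argmax μ.1 μ.2.1
    refine ⟨_, bal_mem_cech (s + 1) x, fun v hv => hDsupp (ι μ) x hx v hv, fun v hv => ?_⟩
    obtain ⟨e, he, rfl⟩ := mk_support _ _ _ _ _ μ v hv
    rw [zero_empty]
    exact (hE μ x hx e he).1
  have hnull : (D.comp ι).Nullhomotopic := by
    obtain ⟨y, hy⟩ := mk_const_nullhomotopic (K := cech (hypercube n) (2 * (s + 1)))
      (weights A hAK) (weights_nonneg A hAK) (weights_sum A hAK)
      (fun e => zero Finset.univ e.1.1) (fun _ => false) (fun e => zero_univ _) (hp Finset.univ)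
      ⟨_, bal_mem_cech (s + 1) (fun _ => false), by simp [bal]⟩
    exact ⟨y, (hDι.trans (hmain Finset.univ)).trans hy⟩
  obtain ⟨y, hy⟩ := hnull.comp_right D
  refine ⟨y, ContinuousMap.Homotopic.trans ?_ hy⟩
  have h1 : ((D.comp D).comp ι).Homotopic ((ContinuousMap.id _).comp ι) :=
    hDD.comp (ContinuousMap.Homotopic.refl ι)
  rw [ContinuousMap.id_comp] at h1
  exact h1.symm

end Cube

end Pool.Agent.Lib.MP_117f64_co
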